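import Pool.Agent.Work.Z0421M.C60
import Pool.Agent.Work.Z0421M.C50
import Pool.Agent.Work.Z0421M.C61
import Pool.Agent.Work.Z0421M.C58

/-!
Planar linear systems with general base points: both halves of the question, and irreducibility, in
the range `M ≤ (d / M) ^ A`, where `M` bounds the multiplicities and `A` is arbitrary; and both halves
for some systems outside of this range.
-/

namespace Pool.Agent.Results.MP_0421d9_ag.AllSystems

open MvPolynomial Module Pool.Agent.Work.MP_0421d9_ag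

/-- the dimension of the space of equations is the expected one -/
def Nonspecial {r : ℕ} (d : ℕ) (p : Fin r → Fin 3 → ℂ) (m : Fin r → ℕ) : Prop :=
  finrank ℂ (linSys d p m) = (d + 2).choose 2 - ∑ i, (m i + 1).choose 2

/-- `s` and `p` together are generic, where the number of the points `s` is `dim L` (and `dim L + 1`
is the dimension of the space of equations) -/
def Further {r : ℕ} (d : ℕ) (p : Fin r → Fin 3 → ℂ) (m : Fin r → ℕ)
    (s : Fin (finrank ℂ (linSys d p m) - 1) → Fin 3 → ℂ) : Prop :=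
  GenericPoints (Sum.elim p s)

/-- There is a squarefree member; the members of the nonempty system which pass through `dim L`
further generic points are smooth on the blow-up and meet all the exceptional curves transversally;
and there are such members. -/
def GeneralSmooth {r : ℕ} (d : ℕ) (p : Fin r → Fin 3 → ℂ) (m : Fin r → ℕ) : Prop :=
  (∃ F ∈ linSys d p m, Squarefree F) ∧
  (∀ s, Further d p m s → ∀ F ∈ linSys d p m, F ≠ 0 → (∀ l, eval (s l) F = 0) →
    SmoothOnBlowup p m F) ∧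
  ∃ F ∈ linSys d p m, F ≠ 0 ∧ SmoothOnBlowup p m F

/-- The members of the nonempty system which pass through `dim L` further generic points are
irreducible (as polynomials, so they are irreducible and reduced curves), and there are such
members. -/
def GeneralIrreducible {r : ℕ} (d : ℕ) (p : Fin r → Fin 3 → ℂ) (m : Fin r → ℕ) : Prop :=
  (∀ s, Further d p m s → ∀ F ∈ linSys d p m, F ≠ 0 → (∀ l, eval (s l) F = 0) → Irreducible F) ∧
    ∃ F ∈ linSys d p m, Irreducible F

/-- The systems in which the multiplicities are at most `M`, where `d ≥ R * M`, and one of the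
following conditions holds:
* `M ≤ (d / M) ^ A`;
* the absolute value of `(d + 2).choose 2 - ∑ (m i + 1).choose 2` is at least `M ^ 2 * (M / d) ^ A`;
* the points with `m i ^ (2 + 1 / A) ≤ d * (M / d) ^ A` impose at least `d ^ 2 * (M / d) ^ A`
  conditions. -/
def Bounded {r : ℕ} (A R : ℝ) (d M : ℕ) (m : Fin r → ℕ) : Prop :=
  (∀ i, m i ≤ M) ∧ R * M ≤ d ∧
    ((M : ℝ) ≤ ((d : ℝ) / M) ^ A ∨
      (M : ℝ) ^ 2 * ((M : ℝ) / d) ^ A ≤
        |((d + 2).choose 2 : ℝ) - ∑ i, ((m i + 1).choose 2 : ℝ)| ∨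
      (d : ℝ) ^ 2 * ((M : ℝ) / d) ^ A ≤
        ∑ i, (if (m i : ℝ) ^ (2 + 1 / A) ≤ d * ((M : ℝ) / d) ^ A then ((m i + 1).choose 2 : ℝ)
          else 0))

/-- The systems in which all the multiplicities but one, `m i₀`, are at most `M`, where
`d - m i₀ ≥ R * M` and `M ≤ ((d - m i₀) / M) ^ A`. -/
def OneLarge {r : ℕ} (A R : ℝ) (d M : ℕ) (m : Fin r → ℕ) : Prop :=
  ∃ i₀, (∀ i, i ≠ i₀ → m i ≤ M) ∧ R * M ≤ (d : ℝ) - m i₀ ∧
    (M : ℝ) ≤ (((d : ℝ) - m i₀) / M) ^ A

theorem exists_through {r d : ℕ} {p : Fin r → Fin 3 → ℂ} {m : Fin r → ℕ}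
    (hne : linSys d p m ≠ ⊥) (s : Fin (finrank ℂ (linSys d p m) - 1) → Fin 3 → ℂ) :
    ∃ F ∈ linSys d p m, F ≠ 0 ∧ ∀ l, eval (s l) F = 0 := by
  have hfin : Module.Finite ℂ (linSys d p m) :=
    Submodule.finiteDimensional_of_le (linSys_le d p _)
  have hpos : finrank ℂ (linSys d p m) ≠ 0 := fun h => hne (Submodule.finrank_eq_zero.mp h)
  let f : linSys d p m →ₗ[ℂ] (Fin (finrank ℂ (linSys d p m) - 1) → ℂ) :=
    { toFun := fun F l => eval (s l) (F : MvPolynomial (Fin 3) ℂ)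
      map_add' := fun F G => by
        funext l
        simp
      map_smul' := fun c F => by
        funext l
        simp [smul_eval] }
  have hf : LinearMap.ker f ≠ ⊥ := by
    apply LinearMap.ker_ne_bot_of_finrank_lt
    rw [Module.finrank_fintype_fun_eq_card, Fintype.card_fin]
    omega
  obtain ⟨z, hz, hz0⟩ := Submodule.exists_mem_ne_zero_of_ne_bot hf
  exact ⟨z, z.2, fun h => hz0 (Subtype.ext h), fun l => congrFun hz l⟩

/-- one arbitrary multiplicity -/
theorem one_large {A : ℝ} (hA : 0 < A) : ∃ R : ℝ, ∀ (r d M : ℕ) (p : Fin r → Fin 3 → ℂ)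
    (m : Fin r → ℕ) (i₀ : Fin r), GenericPoints p → 1 ≤ M → (∀ i, i ≠ i₀ → m i ≤ M) →
    R * M ≤ (d : ℝ) - m i₀ → (M : ℝ) ≤ (((d : ℝ) - m i₀) / M) ^ A → Nonspecial d p m := by
  obtain ⟨C, hC⟩ := LD.all_but_one (ε := 1 / (2 * A)) (by positivity)
  refine ⟨C ^ 2 + 1, fun r d M p m i₀ hp hM hm hd hMd => hC r d M p m i₀ hp hm ?_⟩
  have hM0 : (0 : ℝ) < M := by exact_mod_cast hM
  obtain ⟨y, hy⟩ : ∃ y : ℝ, y = ((d : ℝ) - m i₀) / M := ⟨_, rfl⟩
  have hdy : (d : ℝ) - m i₀ = M * y := by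
    rw [hy, mul_div_cancel₀ _ hM0.ne']
  rw [← hy] at hMd
  have hy1 : C ^ 2 + 1 ≤ y := by
    rw [hy, le_div_iff₀ hM0]
    exact hd
  have hy0 : 0 < y := by nlinarith [sq_nonneg C]
  have h1 : (M : ℝ) ^ (1 / (2 * A)) ≤ y ^ (1 / 2 : ℝ) := by
    calc (M : ℝ) ^ (1 / (2 * A)) ≤ (y ^ A) ^ (1 / (2 * A)) :=
          Real.rpow_le_rpow hM0.le hMd (by positivity)
      _ = y ^ (1 / 2 : ℝ) := by
          rw [← Real.rpow_mul hy0.le]
          congr 1
          field_simp
  have h2 : C ≤ y ^ (1 / 2 : ℝ) := by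
    rw [← Real.sqrt_eq_rpow]
    exact Real.le_sqrt_of_sq_le (by linarith)
  have h3 : y ^ (1 / 2 : ℝ) * y ^ (1 / 2 : ℝ) = y := by
    rw [← Real.rpow_add hy0]
    norm_num
  have h4 : 0 ≤ y ^ (1 / 2 : ℝ) := Real.rpow_nonneg hy0.le _
  have h5 : C * (M : ℝ) ^ (1 + 1 / (2 * A)) ≤ M * y := by
    rw [Real.rpow_add hM0, Real.rpow_one]
    calc C * ((M : ℝ) * (M : ℝ) ^ (1 / (2 * A))) = M * (C * (M : ℝ) ^ (1 / (2 * A))) := by ring
      _ ≤ M * (y ^ (1 / 2 : ℝ) * y ^ (1 / 2 : ℝ)) := by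
          refine mul_le_mul_of_nonneg_left ?_ hM0.le
          exact mul_le_mul h2 h1 (Real.rpow_nonneg hM0.le _) h4
      _ = M * y := by rw [h3]
  linarith

/-- smoothness of the general members from the rigid members -/
theorem smooth_of_not_bad {r d : ℕ} {p : Fin r → Fin 3 → ℂ} (hp : GenericPoints p)
    {m : Fin r → ℕ} (hne : linSys d p m ≠ ⊥)
    (h : ∀ s : Fin (finrank ℂ (linSys d p m) - 1) → Fin 3 → ℂ, GenericPoints (Sum.elim p s) →
      ∀ F ∈ linSys d p m, F ≠ 0 → (∀ l, eval (s l) F = 0) → ¬ SM.Bad d p m F) :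
    GeneralSmooth d p m := by
  have hp0 : ∀ i, p i ≠ 0 := fun i => SM.point_ne_zero hp i
  obtain ⟨s, hs⟩ := exists_extension (κ := Fin (finrank ℂ (linSys d p m) - 1)) p hp
  obtain ⟨F, hF, hF0, hFs⟩ := exists_through hne s
  have hnb := h s hs F hF hF0 hFs
  exact ⟨⟨F, hF, SM.squarefree_of_not_bad hp0 hF hF0 hnb⟩, fun s hs F hF hF0 hFs =>
    SM.smooth_of_not_bad hp0 hF hF0 (h s hs F hF hF0 hFs), F, hF, hF0,
    SM.smooth_of_not_bad hp0 hF hF0 hnb⟩

/-- in the window around the critical degree there is room -/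
theorem large_dim {A : ℝ} {r d M : ℕ} {p : Fin r → Fin 3 → ℂ} {m : Fin r → ℕ} (hM : 1 ≤ M)
    (hd : 1 ≤ d) (hns : Nonspecial d p m) (hne : linSys d p m ≠ ⊥)
    (hx : ¬ (M : ℝ) ≤ ((d : ℝ) / M) ^ A)
    (hW : (M : ℝ) ^ 2 * ((M : ℝ) / d) ^ A ≤
      |((d + 2).choose 2 : ℝ) - ∑ i, ((m i + 1).choose 2 : ℝ)|) :
    M < finrank ℂ (linSys d p m) := by
  have hfin : Module.Finite ℂ (linSys d p m) :=
    Submodule.finiteDimensional_of_le (linSys_le d p _)
  have hpos : finrank ℂ (linSys d p m) ≠ 0 := fun h => hne (Submodule.finrank_eq_zero.mp h)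
  have hns' : finrank ℂ (linSys d p m) = (d + 2).choose 2 - ∑ i, (m i + 1).choose 2 := hns
  have hχ : finrank ℂ (linSys d p m) + ∑ i, (m i + 1).choose 2 = (d + 2).choose 2 := by omega
  have habs : |((d + 2).choose 2 : ℝ) - ∑ i, ((m i + 1).choose 2 : ℝ)| =
      (finrank ℂ (linSys d p m) : ℝ) := by
    have h3 : ((finrank ℂ (linSys d p m) + ∑ i, (m i + 1).choose 2 : ℕ) : ℝ) =
      ((d + 2).choose 2 : ℕ) := by rw [hχ]
    push_cast at h3
    rw [← h3, add_sub_cancel_right]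
    exact abs_of_nonneg (Nat.cast_nonneg _)
  have hM0 : (0 : ℝ) < M := by exact_mod_cast hM
  have hd0 : (0 : ℝ) < d := by exact_mod_cast hd
  rw [habs] at hW
  rw [not_le] at hx
  have h1 : ((M : ℝ) / d) ^ A = (((d : ℝ) / M) ^ A)⁻¹ := by
    rw [← Real.inv_rpow (by positivity), inv_div]
  have hT : 0 < ((d : ℝ) / M) ^ A := Real.rpow_pos_of_pos (by positivity) _
  rw [h1, ← div_eq_mul_inv] at hW
  have h2 : (M : ℝ) < (M : ℝ) ^ 2 / ((d : ℝ) / M) ^ A := by
    rw [lt_div_iff₀ hT, pow_two]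
    exact mul_lt_mul_of_pos_left hx hM0
  exact_mod_cast lt_of_lt_of_le h2 hW

/-- Let `p i` be generic points of the plane, let `L` be the system of the plane curves of degree
`d` with multiplicity at least `m i` at `p i`. For every `A > 0` there is a constant `R` with the
following properties.

* If the system is one of those in `Bounded` or in `OneLarge`, then `L` is nonspecial: the space of
  its equations has the dimension `(d + 2).choose 2 - ∑ (m i + 1).choose 2`, or `0` if this number is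
  negative. If it is nonempty, then its general member is a smooth curve on the blow-up, which meets
  all the exceptional curves transversally.
* If all the multiplicities are at most `M`, and `d ≥ R * M` and `M ≤ (d / M) ^ A`, and if the system is
  nonempty, then its general member is irreducible. -/
theorem result {A : ℝ} (hA : 0 < A) : ∃ R : ℝ, ∀ (r d M : ℕ) (p : Fin r → Fin 3 → ℂ)
    (m : Fin r → ℕ), GenericPoints p → 1 ≤ M →
    (Bounded A R d M m ∨ OneLarge A R d M m →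
      Nonspecial d p m ∧ (linSys d p m ≠ ⊥ → GeneralSmooth d p m)) ∧
    ((∀ i, m i ≤ M) → R * M ≤ d → (M : ℝ) ≤ ((d : ℝ) / M) ^ A →
      linSys d p m ≠ ⊥ → GeneralIrreducible d p m) := by
  obtain ⟨R₁, h1⟩ := LD.all_smooth hA
  obtain ⟨R₂, h2⟩ := LD.all_irreducible hA
  obtain ⟨R₃, h3⟩ := one_large hA
  obtain ⟨R₄, h4⟩ := ZC.all_not_bad hA
  obtain ⟨R₅, h5⟩ := ZE.small_window hA
  obtain ⟨R₆, h6⟩ := ZE.one_large_not_bad hA
  obtain ⟨R, hR⟩ : ∃ R, R = |R₁| + |R₂| + |R₃| + |R₄| + |R₅| + |R₆| + 1 := ⟨_, rfl⟩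
  have k1 := abs_nonneg R₁
  have k2 := abs_nonneg R₂
  have k3 := abs_nonneg R₃
  have k4 := abs_nonneg R₄
  have k5 := abs_nonneg R₅
  have k6 := abs_nonneg R₆
  have hR0 : 1 ≤ R := by linarith
  have hR1 : R₁ ≤ R := by linarith [le_abs_self R₁]
  have hR2 : R₂ ≤ R := by linarith [le_abs_self R₂]
  have hR3 : R₃ ≤ R := by linarith [le_abs_self R₃]
  have hR4 : R₄ ≤ R := by linarith [le_abs_self R₄]
  have hR5 : R₅ ≤ R := by linarith [le_abs_self R₅]
  have hR6 : R₆ ≤ R := by linarith [le_abs_self R₆]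
  refine ⟨R, fun r d M p m hp hM => ?_⟩
  have hM0 : (0 : ℝ) ≤ M := Nat.cast_nonneg M
  have hle : ∀ R' D : ℝ, R' ≤ R → R * M ≤ D → R' * M ≤ D :=
    fun R' D h h' => (mul_le_mul_of_nonneg_right h hM0).trans h'
  refine ⟨?_, fun hm hd H hne => ?_⟩
  · rintro (⟨hm, hd, H⟩ | ⟨i₀, hm, hd, H⟩)
    · by_cases hx : (M : ℝ) ≤ ((d : ℝ) / M) ^ A
      · obtain ⟨g1, g2⟩ := h1 r d M p m hp hM hm (hle _ _ hR1 hd) (Or.inl hx)
        exact ⟨g1, fun hne => smooth_of_not_bad hp hne (h4 r d M p m hp hM hm (hle _ _ hR4 hd) hx)⟩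
      by_cases hW : (M : ℝ) ^ 2 * ((M : ℝ) / d) ^ A ≤
          |((d + 2).choose 2 : ℝ) - ∑ i, ((m i + 1).choose 2 : ℝ)|
      · obtain ⟨g1, g2⟩ := h1 r d M p m hp hM hm (hle _ _ hR1 hd) (Or.inr (Or.inl hW))
        refine ⟨g1, fun hne => ?_⟩
        have hd1 : 1 ≤ d := by
          have g5 : (1 : ℝ) ≤ M := by exact_mod_cast hM
          have g6 : (1 : ℝ) ≤ d := by nlinarith
          exact_mod_cast g6
        have g7 := large_dim hM hd1 g1 hne hx hW
        refine g2 hne (fun j a _ _ => ?_) (Or.inr fun j _ => ?_)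
        · have := hm j
          omega
        · have := hm j
          omega
      rcases H with H | H | H
      · exact absurd H hx
      · exact absurd H hW
      · obtain ⟨g1, g2⟩ := h5 r d M p m hp hM hm (hle _ _ hR5 hd) (not_le.mp hx) (not_le.mp hW) H
        exact ⟨g1, fun hne => smooth_of_not_bad hp hne g2⟩
    · exact ⟨h3 r d M p m i₀ hp hM hm (hle _ _ hR3 hd) H, fun hne =>
        smooth_of_not_bad hp hne (h6 r d M p m i₀ hp hM hm (hle _ _ hR6 hd) H)⟩
  · have hirr := h2 r d M p m hp hM hm (hle _ _ hR2 hd) H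
    obtain ⟨s, hs⟩ := exists_extension (κ := Fin (finrank ℂ (linSys d p m) - 1)) p hp
    obtain ⟨F, hF, hF0, hFs⟩ := exists_through hne s
    exact ⟨hirr, F, hF, hirr s hs F hF hF0 hFs⟩

end Pool.Agent.Results.MP_0421d9_ag.AllSystems
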