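import Pool.Agent.Work.Z0421M.C57
import Pool.Agent.Work.Z0421M.C60

/-!
Planar linear systems with general base points. Part 1: both halves of the question hold, in all
degrees, for almost all the systems of multiplicities, ordered by the number of conditions.
Part 2: they hold if points of small multiplicities are added to any set of points which impose
independent conditions in a slightly smaller degree.
-/

namespace Pool.Agent.Results.MP_0421d9_ag.AlmostAllSystems

open MvPolynomial Module Filter Pool.Agent.Work.MP_0421d9_ag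

/-- the dimension of the space of equations is the expected one -/
def Nonspecial {r : ℕ} (d : ℕ) (p : Fin r → Fin 3 → ℂ) (m : Fin r → ℕ) : Prop :=
  finrank ℂ (linSys d p m) = (d + 2).choose 2 - ∑ i, (m i + 1).choose 2

/-- the conclusion (G): the system is nonspecial and, if it is nonempty, there is a squarefree
member, and there are members which are smooth on the blow-up and meet all the exceptional curves
transversally; among them all those through `dim L` further generic points (where `dim L + 1` is
the dimension of the space of equations) -/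
def Answer {r : ℕ} (d : ℕ) (p : Fin r → Fin 3 → ℂ) (m : Fin r → ℕ) : Prop :=
  finrank ℂ (linSys d p m) = (d + 2).choose 2 - ∑ i, (m i + 1).choose 2 ∧
  (linSys d p m ≠ ⊥ →
    (∃ F ∈ linSys d p m, Squarefree F) ∧
    (∀ s : Fin (finrank ℂ (linSys d p m) - 1) → Fin 3 → ℂ, GenericPoints (Sum.elim p s) →
      ∀ F ∈ linSys d p m, F ≠ 0 → (∀ l, eval (s l) F = 0) → SmoothOnBlowup p m F) ∧
    (∃ F ∈ linSys d p m, F ≠ 0 ∧ SmoothOnBlowup p m F))

/-- the number of conditions imposed by points with the multiplicities in `s` -/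
def conditions (s : Multiset ℕ) : ℕ := (s.map (fun v => (v + 1).choose 2)).sum

/-- the multisets of positive multiplicities with at most `n` conditions -/
def systems (n : ℕ) : Set (Multiset ℕ) := {s | 0 ∉ s ∧ conditions s ≤ n}

/-- for generic points with the multiplicities in `s`, the conclusion holds in all degrees -/
def Holds (s : Multiset ℕ) : Prop :=
  ∀ (r : ℕ) (m : Fin r → ℕ), Finset.univ.val.map m = s → ∀ p : Fin r → Fin 3 → ℂ,
    GenericPoints p → ∀ d : ℕ, Answer d p m

/-- the points `p i` with `i ∈ B`, with the multiplicities `m i`, impose independent conditions on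
the forms of degree `D` -/
def Independent {r : ℕ} (D : ℕ) (p : Fin r → Fin 3 → ℂ) (m : Fin r → ℕ) (B : Finset (Fin r)) :
    Prop :=
  finrank ℂ (linSys D p (fun i => if i ∈ B then m i else 0)) + ∑ i ∈ B, (m i + 1).choose 2 =
    (D + 2).choose 2

theorem rg_iff {r : ℕ} {D : ℕ} {p : Fin r → Fin 3 → ℂ} (hp : GenericPoints p) (m : Fin r → ℕ)
    (B : Finset (Fin r)) : Independent D p m B ↔ LD.Rg D (onB B m) := by
  unfold Independent LD.Rg
  rw [sum_onB, ← LD.hPm_eq hp]
  rfl

/-- there is a member through `dim L` given points -/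
theorem exists_through {r d : ℕ} {p : Fin r → Fin 3 → ℂ} {m : Fin r → ℕ}
    (hne : linSys d p m ≠ ⊥) (s : Fin (finrank ℂ (linSys d p m) - 1) → Fin 3 → ℂ) :
    ∃ F ∈ linSys d p m, F ≠ 0 ∧ ∀ l, eval (s l) F = 0 := by
  have hfin : Module.Finite ℂ (linSys d p m) :=
    Submodule.finiteDimensional_of_le (linSys_le d p _)
  have hpos : finrank ℂ (linSys d p m) ≠ 0 := fun h => hne (Submodule.finrank_eq_zero.mp h)
  let f : linSys d p m →ₗ[ℂ] (Fin (finrank ℂ (linSys d p m) - 1) → ℂ) :=
    { toFun := fun F l => eval (s l) (F : MvPolynomial (Fin 3) ℂ)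
      map_add' := fun F G => by
        funext l
        simp
      map_smul' := fun c F => by
        funext l
        simp [smul_eval] }
  have hf : LinearMap.ker f ≠ ⊥ := by
    apply LinearMap.ker_ne_bot_of_finrank_lt
    rw [Module.finrank_fintype_fun_eq_card, Fintype.card_fin]
    omega
  obtain ⟨z, hz, hz0⟩ := Submodule.exists_mem_ne_zero_of_ne_bot hf
  exact ⟨z, z.2, fun h => hz0 (Subtype.ext h), fun l => congrFun hz l⟩

/-- two scales: a part of `B` is independent, the rest of it has multiplicities at most `k` -/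
theorem independent_of_scales {r D M k : ℕ} {p : Fin r → Fin 3 → ℂ} (hp : GenericPoints p)
    {m : Fin r → ℕ} {B B' : Finset (Fin r)} (hB : B' ⊆ B) (hM : ∀ i ∈ B, m i ≤ M) (hkM : k ≤ M)
    (hk : ∀ i ∈ B, i ∉ B' → m i ≤ k) (h : Independent D p m B')
    (hN : ∑ i ∈ B, (m i + 1).choose 2 + (k - 1) * (M - 1) ≤ (D + 2).choose 2) :
    Independent D p m B := by
  have e1 : onB B' (onB B m) = onB B' m := by
    funext i
    unfold onB
    by_cases hi : i ∈ B'
    · rw [if_pos hi, if_pos hi, if_pos (hB hi)]
    · rw [if_neg hi, if_neg hi]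
  have hM' : ∀ i, onB B m i ≤ M := by
    intro i
    unfold onB
    split_ifs with hi
    · exact hM i hi
    · exact Nat.zero_le _
  have hk' : ∀ i, i ∉ B' → onB B m i ≤ k := by
    intro i hi'
    unfold onB
    split_ifs with hi
    · exact hk i hi hi'
    · exact Nat.zero_le _
  have h1 : finrank ℂ (linSys D p (onB B' (onB B m))) +
      ∑ i, (onB B' (onB B m) i + 1).choose 2 = (D + 2).choose 2 := by
    rw [e1, sum_onB]
    exact h
  have h2 := kq_nonspecial hp hkM hM' B' hk' h1
    (Or.inr (by rw [sum_onB, Nat.mul_comm (M - 1)]; exact hN))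
  rw [sum_onB] at h2
  show finrank ℂ (linSys D p (onB B m)) + _ = _
  rw [h2]
  omega

/-- **Part 1.** Among the multisets `s` of positive multiplicities with at most `n` conditions, the
proportion of those for which the conclusion holds in all degrees tends to `1`.

**Part 2.** Let `p i` be generic points of the plane, let `L` be the system of the plane curves of
degree `d` with multiplicity at least `m i` at `p i`, where `m i ≤ M` for all `i`. Then `L` is
nonspecial and, if it is nonempty, it has a reduced member, and its general member is a smooth curve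
on the blow-up, which meets all the exceptional curves transversally (this is `Answer`), in the
following cases.
* `d ≥ 3 (M + 2) ^ 2 + M`.
* `m i ≤ u` for all `i` outside of a set `B`, the points in `B` impose independent conditions in
  degree `d - t`, and `t ≥ C u ^ (1 + ε)`, `t d ≥ C u ^ (2 + ε) M`, for some `u ≥ 1`, where `ε > 0`
  is arbitrary, and `C` depends only on `ε`. For `L` being nonspecial `t d ≥ C u ^ 2 M` is enough.

**Part 3.** The points in `B` impose independent conditions in degree `D` for example in the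
following cases.
* `D` is at least the sum of the multiplicities of any at most three of them, and `3 * D` is more
  than the sum of all; if `B` has at most three elements, pairs instead of triples are enough.
* The points in a subset `B'` of `B` impose independent conditions in degree `D`, the
  multiplicities in `B` are at most `M`, those outside of `B'` are at most `k`, and the number of
  conditions of `B` is at most `(D + 2).choose 2 - (k - 1) (M - 1)`. -/
theorem result :
    ((∀ n, (systems n).Finite) ∧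
      Tendsto (fun n : ℕ => (({s ∈ systems n | Holds s} : Set (Multiset ℕ)).ncard : ℝ) /
        (systems n).ncard) atTop (nhds 1)) ∧
    (∀ (r d M : ℕ) (p : Fin r → Fin 3 → ℂ) (m : Fin r → ℕ), GenericPoints p → (∀ i, m i ≤ M) →
      3 * (M + 2) ^ 2 + M ≤ d → Answer d p m) ∧
    (∀ ε : ℝ, 0 < ε → ∃ C : ℝ, ∀ (r d t u M : ℕ) (p : Fin r → Fin 3 → ℂ) (m : Fin r → ℕ)
      (B : Finset (Fin r)), GenericPoints p → 1 ≤ u → (∀ i, m i ≤ M) → (∀ i, i ∉ B → m i ≤ u) →
      t ≤ d → Independent (d - t) p m B → C * (u : ℝ) ^ (1 + ε) ≤ t →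
      (C * (u : ℝ) ^ 2 * M ≤ (t : ℝ) * d → Nonspecial d p m) ∧
      (C * (u : ℝ) ^ (2 + ε) * M ≤ (t : ℝ) * d → Answer d p m)) ∧
    ∀ (r D M k : ℕ) (p : Fin r → Fin 3 → ℂ) (m : Fin r → ℕ) (B B' : Finset (Fin r)),
      GenericPoints p →
      (((∀ J ⊆ B, J.card ≤ 3 → ∑ i ∈ J, m i ≤ D) ∧ ∑ i ∈ B, m i < 3 * D) ∨
        (B.card ≤ 3 ∧ ∀ J ⊆ B, J.card ≤ 2 → ∑ i ∈ J, m i ≤ D) ∨
        (B' ⊆ B ∧ Independent D p m B' ∧ (∀ i ∈ B, m i ≤ M) ∧ (∀ i ∈ B, i ∉ B' → m i ≤ k) ∧
          k ≤ M ∧ ∑ i ∈ B, (m i + 1).choose 2 + (k - 1) * (M - 1) ≤ (D + 2).choose 2)) →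
      Independent D p m B := by
  refine ⟨AA.tendsto_of_nice AA.fine_of_nice, fun r d M p m hp hM hd => ?_, fun ε hε => ?_,
    fun r D M k p m B B' hp h => ?_⟩
  · refine ⟨LD.main hp hM ?_, fun hne => ?_⟩
    · have h1 : M ^ 2 ≤ (M + 2) ^ 2 := Nat.pow_le_pow_left (Nat.le_add_right M 2) 2
      omega
    · obtain ⟨h1, -, h3, h4⟩ := SM.main_all p hp m hM (Or.inl hd) hne
      exact ⟨h1, h3, h4⟩
  · obtain ⟨C, hC⟩ := ZE.rel_both hε
    refine ⟨C, fun r d t u M p m B hp hu hM hm htd hB ht => ?_⟩
    obtain ⟨h1, h2⟩ := hC r d t u M p m B hp hu hM hm htd ((rg_iff hp m B).mp hB) ht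
    refine ⟨h1, fun h => ?_⟩
    obtain ⟨h3, key⟩ := h2 h
    refine ⟨h3, fun hne => ?_⟩
    have hp0 : ∀ i, p i ≠ 0 := fun i => SM.point_ne_zero hp i
    obtain ⟨s, hs⟩ := exists_extension (κ := Fin (finrank ℂ (linSys d p m) - 1)) p hp
    obtain ⟨F, hF, hF0, hFs⟩ := exists_through hne s
    have hnb := key s hs F hF hF0 hFs
    exact ⟨⟨F, hF, SM.squarefree_of_not_bad hp0 hF hF0 hnb⟩, fun s hs F hF hF0 hFs =>
      SM.smooth_of_not_bad hp0 hF hF0 (key s hs F hF hF0 hFs), F, hF, hF0,
      SM.smooth_of_not_bad hp0 hF hF0 hnb⟩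
  · rcases h with ⟨h1, h2⟩ | ⟨h1, h2⟩ | ⟨hB, h1, h2, h3, h4, h5⟩
    · exact (rg_iff hp m B).mpr (LD.indep_reduced h1 h2)
    · exact (rg_iff hp m B).mpr (LD.indep_small h1 h2)
    · exact independent_of_scales hp hB h2 h4 h3 h1 h5

end Pool.Agent.Results.MP_0421d9_ag.AlmostAllSystems
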