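import Pool.Agent.Work.Z0421M.C57
import Pool.Agent.Work.Z0421M.C22
import Pool.Agent.Work.Z0421M.C51

/-!
Planar linear systems with any number of general base points of arbitrary multiplicities and any
number of further general base points of smaller multiplicities. If the system is Cremona-reduced,
i.e. its degree is at least the sum of any three of its multiplicities, and if three times the
degree exceeds the sum of the arbitrary multiplicities by a multiple of the square of the bound
for the other ones, then the system is nonspecial, and so are all the systems in its orbit under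
quadratic transformations. If this holds for a slightly larger bound, then the general members are
reduced, and smooth on the blow-up.
-/

namespace Pool.Agent.Results.MP_0421d9_ag.CremonaReduced

open MvPolynomial Module Pool.Agent.Work.MP_0421d9_ag

/-- The degree `d` is at least the sum of the multiplicities of any three points in `B`, where one
or several of them can be replaced by `t`: for all sets `J ⊆ B` of at most three indices,
`d ≥ ∑ i ∈ J, m i + (3 - #J) t`. If the multiplicities outside of `B` are at most `t`, then the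
degree is at least the sum of any three multiplicities. Moreover `3 d` is at least the sum of all
the multiplicities in `B` plus `100 (t + 1) ^ 2`. -/
def Reduced {r : ℕ} (d t : ℕ) (m : Fin r → ℕ) (B : Finset (Fin r)) : Prop :=
  (∀ J ⊆ B, J.card ≤ 3 → ∑ i ∈ J, m i + (3 - J.card) * t ≤ d) ∧
    ∑ i ∈ B, m i + 100 * (t + 1) ^ 2 ≤ 3 * d

/-- The quadratic transformation centred at the points `a`, `b`, `c` takes the system
`x = (d, m)` of the curves of degree `d` with multiplicities `m i` to `x' = (d', m')`, where
`d' = 2 d - m a - m b - m c`, `m' a = d - m b - m c`, `m' b = d - m a - m c`,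
`m' c = d - m a - m b`, and `m' i = m i` for the other `i`. We assume that `m a`, `m b`, `m c` are
at most `d` and that their sums in pairs are at most `d + 1`; if such a sum is `d + 1`, then the
number `-1` is replaced by `0` in `m'`. -/
def Quadratic {r : ℕ} (x x' : ℕ × (Fin r → ℕ)) : Prop :=
  ∃ a b c : Fin r, a ≠ b ∧ a ≠ c ∧ b ≠ c ∧ x.2 a ≤ x.1 ∧ x.2 b ≤ x.1 ∧ x.2 c ≤ x.1 ∧
    x.2 a + x.2 b ≤ x.1 + 1 ∧ x.2 a + x.2 c ≤ x.1 + 1 ∧ x.2 b + x.2 c ≤ x.1 + 1 ∧
    x'.1 + x.2 a + x.2 b + x.2 c = 2 * x.1 ∧
    x'.2 a = x.1 - x.2 b - x.2 c ∧ x'.2 b = x.1 - x.2 a - x.2 c ∧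
    x'.2 c = x.1 - x.2 a - x.2 b ∧ ∀ i, i ≠ a → i ≠ b → i ≠ c → x'.2 i = x.2 i

/-- For every `j` outside of `B` with `m j ≥ 2` and every `a` with `m a ≥ 2` the multiplicity `m j`
is less than the dimension of the space of equations plus the number of conditions imposed by the
points outside of `B`, other than `p a`, of multiplicity smaller than `m j`; for `m j = 2` this is
only needed if the system has no reduced member. -/
def Room {r : ℕ} (d : ℕ) (p : Fin r → Fin 3 → ℂ) (m : Fin r → ℕ) (B : Finset (Fin r)) : Prop :=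
  ∀ j a, j ∉ B → 2 ≤ m j → 2 ≤ m a → (m j = 2 → ∀ F ∈ linSys d p m, ¬ Squarefree F) →
    m j < finrank ℂ (linSys d p m) +
      ∑ i ∈ Finset.univ.filter (fun i => i ∉ B ∧ i ≠ a ∧ m i < m j), (m i + 1).choose 2

/-- there is a member through `dim L` given points -/
theorem exists_through {r d : ℕ} {p : Fin r → Fin 3 → ℂ} {m : Fin r → ℕ}
    (hne : linSys d p m ≠ ⊥) (s : Fin (finrank ℂ (linSys d p m) - 1) → Fin 3 → ℂ) :
    ∃ F ∈ linSys d p m, F ≠ 0 ∧ ∀ l, eval (s l) F = 0 := by
  have hfin : Module.Finite ℂ (linSys d p m) :=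
    Submodule.finiteDimensional_of_le (linSys_le d p _)
  have hpos : finrank ℂ (linSys d p m) ≠ 0 := fun h => hne (Submodule.finrank_eq_zero.mp h)
  let f : linSys d p m →ₗ[ℂ] (Fin (finrank ℂ (linSys d p m) - 1) → ℂ) :=
    { toFun := fun F l => eval (s l) (F : MvPolynomial (Fin 3) ℂ)
      map_add' := fun F G => by
        funext l
        simp
      map_smul' := fun c F => by
        funext l
        simp [smul_eval] }
  have hf : LinearMap.ker f ≠ ⊥ := by
    apply LinearMap.ker_ne_bot_of_finrank_lt
    rw [Module.finrank_fintype_fun_eq_card, Fintype.card_fin]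
    omega
  obtain ⟨z, hz, hz0⟩ := Submodule.exists_mem_ne_zero_of_ne_bot hf
  exact ⟨z, z.2, fun h => hz0 (Subtype.ext h), fun l => congrFun hz l⟩

/-- Let `p i` be generic points of the plane, let `B` be any set of indices, and let `m i ≤ u` for
all `i` outside of `B`.

* If `Reduced d u m B`, then the system of the curves of degree `d` with multiplicity at least
  `m i` at `p i` is nonspecial; and so is every system which is taken to it by quadratic
  transformations.
* For every `ε > 0` there is a constant `C` such that the following holds for `u ≥ 1`. Let the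
  system be nonempty, and assume that `Reduced d t m B` for some `t ≥ C u ^ (1 + ε)`; or assume that
  `Reduced d (u + 1) m B` and `Room d p m B`. Then the system has a reduced member, and its general
  member is a smooth curve on the blow-up, which meets all the exceptional curves transversally.
  More precisely, this holds for all the members through `dim L` further generic points. -/
theorem result :
    (∀ (r d u : ℕ) (p : Fin r → Fin 3 → ℂ) (m : Fin r → ℕ) (B : Finset (Fin r)),
      GenericPoints p → (∀ i, i ∉ B → m i ≤ u) → Reduced d u m B →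
      ∀ x : ℕ × (Fin r → ℕ), Relation.ReflTransGen Quadratic x (d, m) →
        finrank ℂ (linSys x.1 p x.2) = (x.1 + 2).choose 2 - ∑ i, (x.2 i + 1).choose 2) ∧
    ∀ ε : ℝ, 0 < ε → ∃ C : ℝ, ∀ (r d u : ℕ) (p : Fin r → Fin 3 → ℂ) (m : Fin r → ℕ)
      (B : Finset (Fin r)), GenericPoints p → 1 ≤ u → (∀ i, i ∉ B → m i ≤ u) →
      linSys d p m ≠ ⊥ →
      (∃ t : ℕ, C * (u : ℝ) ^ (1 + ε) ≤ t ∧ Reduced d t m B) ∨
        (Reduced d (u + 1) m B ∧ Room d p m B) →
      (∃ F ∈ linSys d p m, Squarefree F) ∧
      (∀ s : Fin (finrank ℂ (linSys d p m) - 1) → Fin 3 → ℂ, GenericPoints (Sum.elim p s) →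
        ∀ F ∈ linSys d p m, F ≠ 0 → (∀ k, eval (s k) F = 0) → SmoothOnBlowup p m F) ∧
      (∃ F ∈ linSys d p m, F ≠ 0 ∧ SmoothOnBlowup p m F) := by
  refine ⟨fun r d u p m B hp hu h x hx => ?_, fun ε hε => ?_⟩
  · rw [LD.hPm_eq hp]
    have hx' : Relation.ReflTransGen LD.Quadratic x (d, m) := hx
    exact LD.Quadratic.nonspecial hx' (LD.red_main (u := u) (B := B) ⟨hu, h.1, h.2⟩)
  · obtain ⟨C, -, hC⟩ := ZE.reduced_not_bad hε
    refine ⟨C, fun r d u p m B hp hu hm hne h => ?_⟩
    rcases h with ⟨t, ht, h1, h2⟩ | ⟨⟨h1, h2⟩, hJ⟩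
    · have key := hC r d u t p m B hp hu hm ht ⟨h1, h2⟩
      have hp0 : ∀ i, p i ≠ 0 := fun i => SM.point_ne_zero hp i
      obtain ⟨s, hs⟩ := exists_extension (κ := Fin (finrank ℂ (linSys d p m) - 1)) p hp
      obtain ⟨F, hF, hF0, hFs⟩ := exists_through hne s
      have hnb := key s hs F hF hF0 hFs
      exact ⟨⟨F, hF, SM.squarefree_of_not_bad hp0 hF hF0 hnb⟩, fun s hs F hF hF0 hFs =>
        SM.smooth_of_not_bad hp0 hF hF0 (key s hs F hF hF0 hFs), F, hF, hF0,
        SM.smooth_of_not_bad hp0 hF hF0 hnb⟩
    · have hR : LD.Red (u + 1) d m B := ⟨fun i hi => (hm i hi).trans (Nat.le_succ u), h1, h2⟩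
      exact red_boot hu p hp m hR hm hJ hne

end Pool.Agent.Results.MP_0421d9_ag.CremonaReduced
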