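import Pool.Agent.Work.Z0421M.C04
import Pool.Agent.Work.Z0421M.C29
import Pool.Agent.Work.Z0421M.C42
import Pool.Agent.Work.Z0421M.C57

/-!
Special planar linear systems with general base points live in a window: bounds for the dimension
and for the superabundance which involve neither the degree nor the number of points. If all the
multiplicities are at most `M`, and at most `u` with the exception of those of some points which
alone impose independent conditions, then the square roots of the dimension and of the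
superabundance of a nonempty special system add up to at most `√(u M)`, and all the systems whose
virtual dimension is at least `(u - 1) (M - 1)` in absolute value are nonspecial. The exceptional
points can be any points such that the degree is at least the sum of any three of their
multiplicities and more than the third part of the sum of all of them. If the virtual dimension is
more than `u M`, then the general members are reduced, and smooth on the blow-up.
-/

namespace Pool.Agent.Results.MP_0421d9_ag.SquareRootWindow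

open MvPolynomial Module Pool.Agent.Work.MP_0421d9_ag

/-- The points `p i` with `i ∈ B`, with the multiplicities `m i`, impose independent conditions on
the forms of degree `d`. -/
def Independent {r : ℕ} (d : ℕ) (p : Fin r → Fin 3 → ℂ) (m : Fin r → ℕ) (B : Finset (Fin r)) :
    Prop :=
  finrank ℂ (linSys d p (fun i => if i ∈ B then m i else 0)) + ∑ i ∈ B, (m i + 1).choose 2 =
    (d + 2).choose 2

/-- Let `L` be the system of the plane curves of degree `d` with multiplicity at least `m i` at
generic points `p i`; `h⁰` is the dimension of the vector space of its equations, its virtual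
dimension is `χ = (d + 2).choose 2 - ∑ (m i + 1).choose 2`, its superabundance is `h¹ = h⁰ - χ`.

* Let `B` be a set of indices such that the points `p i`, `i ∈ B`, impose independent conditions,
  let `m i ≤ M` for all `i`, and `m i ≤ u ≤ M` for all `i` outside of `B`. If `L` is nonempty and
  special (`h¹ ≥ 1`), then `h⁰ / c + h¹ / (u - c) ≤ M` for some integer `0 < c < u`, and so
  `√h⁰ + √h¹ ≤ √(u M)`. Moreover `h⁰ ≤ (m i - 1) (m j - 1)` for some `i` outside of `B` and some
  `j ≠ i`. If `|χ| ≥ (u - 1) (M - 1)`, then `L` is nonspecial: `h⁰ = χ` if `χ` is not negative,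
  and `h⁰ = 0` otherwise.
* The points `p i`, `i ∈ B`, impose independent conditions if `B` is empty, or if `d` is at least
  the sum of the multiplicities of any at most three of them, and `3 d` is more than the sum of
  all of them. For example, if `m₁ ≥ m₂ ≥ ...`, then `L` is nonspecial if
  `|χ| ≥ (m₁ - 1) (m₂ - 1)`; also if `d ≥ m₁ + m₂` and `|χ| ≥ (m₁ - 1) (m₃ - 1)`; also if
  `d ≥ m₁ + m₂ + m₃`, `3 d > m₁ + ... + m_k` and `|χ| ≥ (m₁ - 1) (m_(k+1) - 1)` for some `k`.
* If `L` is nonempty, `h¹` is at most the sum of `μ (μ - 1) / 2` over the distinct values `μ` of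
  the multiplicities.
* The bounds `(m i - 1) (m j - 1)` and `|χ| ≥ (u - 1) (M - 1)` are attained for all `M ≥ u ≥ 2`:
  for two points of multiplicities `M` and `u` and `d = M + u - 2`, `h⁰ = (M - 1) (u - 1)` and
  `h¹ = 1`.
* Let `L` be nonempty, let `χ` plus the number of simple base points be more than `u M`, and let
  `B` be empty, or let `d` be at least the sum of the multiplicities of any three points in `B`,
  where they can be replaced by `u + 1`, and let `3 d - u - 18` be at least the sum of all of them.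
  Then `L` is nonspecial and has a reduced member, and its general member is a smooth curve on the
  blow-up, which meets all the exceptional curves transversally. More precisely, this holds for all
  the members through `dim L` further generic points. -/
theorem result :
    (∀ (r d M u : ℕ) (p : Fin r → Fin 3 → ℂ), GenericPoints p → ∀ (m : Fin r → ℕ)
      (B : Finset (Fin r)), Independent d p m B → (∀ i, m i ≤ M) → u ≤ M →
      (∀ i, i ∉ B → m i ≤ u) →
      (linSys d p m ≠ ⊥ → ∀ S : ℕ, 1 ≤ S →
        finrank ℂ (linSys d p m) + ∑ i, (m i + 1).choose 2 = (d + 2).choose 2 + S →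
        (∃ c : ℕ, 1 ≤ c ∧ c + 1 ≤ u ∧
          (finrank ℂ (linSys d p m) : ℝ) / c + (S : ℝ) / ((u : ℝ) - c) ≤ M) ∧
        √(finrank ℂ (linSys d p m) : ℝ) + √(S : ℝ) ≤ √((u : ℝ) * M) ∧
        ∃ i j, i ∉ B ∧ i ≠ j ∧ finrank ℂ (linSys d p m) ≤ (m i - 1) * (m j - 1)) ∧
      ((d + 2).choose 2 + (M - 1) * (u - 1) ≤ ∑ i, (m i + 1).choose 2 ∨
          ∑ i, (m i + 1).choose 2 + (M - 1) * (u - 1) ≤ (d + 2).choose 2 →
        finrank ℂ (linSys d p m) = (d + 2).choose 2 - ∑ i, (m i + 1).choose 2)) ∧
    (∀ (r d : ℕ) (p : Fin r → Fin 3 → ℂ), GenericPoints p → ∀ (m : Fin r → ℕ)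
      (B : Finset (Fin r)), (B = ∅ ∨ ((∀ J ⊆ B, J.card ≤ 3 → ∑ i ∈ J, m i ≤ d) ∧
        ∑ i ∈ B, m i < 3 * d)) → Independent d p m B) ∧
    (∀ (r d : ℕ) (p : Fin r → Fin 3 → ℂ), GenericPoints p → ∀ m : Fin r → ℕ,
      linSys d p m ≠ ⊥ → ∀ S : ℕ,
      finrank ℂ (linSys d p m) + ∑ i, (m i + 1).choose 2 = (d + 2).choose 2 + S →
      S ≤ ∑ μ ∈ Finset.univ.image m, μ.choose 2) ∧
    (∀ (α β : ℕ) (p : Fin 2 → Fin 3 → ℂ), GenericPoints p →
      finrank ℂ (linSys (α + β + 2) p ![α + 2, β + 2]) = (α + 1) * (β + 1) ∧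
      (α + 1) * (β + 1) + ∑ i, ((![α + 2, β + 2] : Fin 2 → ℕ) i + 1).choose 2 =
        (α + β + 2 + 2).choose 2 + 1) ∧
    (∀ (r d M u : ℕ) (p : Fin r → Fin 3 → ℂ), GenericPoints p → ∀ (m : Fin r → ℕ)
      (B : Finset (Fin r)), (∀ i, m i ≤ M) → 1 ≤ u → u ≤ M → (∀ i, i ∉ B → m i ≤ u) →
      (B = ∅ ∨ ((∀ J ⊆ B, J.card ≤ 3 → ∑ i ∈ J, m i + (3 - J.card) * (u + 1) ≤ d) ∧
        ∑ i ∈ B, m i + u + 18 ≤ 3 * d)) →
      ∑ i, (m i + 1).choose 2 + u * M <
        (d + 2).choose 2 + (Finset.univ.filter (fun j => m j = 1)).card →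
      linSys d p m ≠ ⊥ →
      finrank ℂ (linSys d p m) = (d + 2).choose 2 - ∑ i, (m i + 1).choose 2 ∧
      (∃ F ∈ linSys d p m, Squarefree F) ∧
      (∀ s : Fin (finrank ℂ (linSys d p m) - 1) → Fin 3 → ℂ, GenericPoints (Sum.elim p s) →
        ∀ F ∈ linSys d p m, F ≠ 0 → (∀ l, eval (s l) F = 0) → SmoothOnBlowup p m F) ∧
      (∃ F ∈ linSys d p m, F ≠ 0 ∧ SmoothOnBlowup p m F)) := by
  refine ⟨fun r d M u p hp m B hB hM huM hms => ?_, fun r d p hp m B hB => ?_,
    fun r d p hp m hne S h => ?_, fun α β p hp => ⟨?_, ?_⟩,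
    fun r d M u p hp m B hM hu huM hms hB hχ hne => ?_⟩
  · have hB' : finrank ℂ (linSys d p (onB B m)) + ∑ i, (onB B m i + 1).choose 2 =
        (d + 2).choose 2 := by
      rw [sum_onB]
      exact hB
    refine ⟨fun hne S hS h => ?_, fun h => kq_nonspecial hp huM hM B hms hB' h⟩
    have hsp : finrank ℂ (linSys d p m) + ∑ i, (m i + 1).choose 2 ≠ (d + 2).choose 2 := by omega
    obtain ⟨c, e, S', hc, he, hce, -, hS', hle⟩ := kq_window hp huM hM B hms hB' hne hsp
    obtain rfl : S = S' := by omega
    refine ⟨⟨c, hc, by omega, ?_⟩, kq_sqrt_add_le hc he hce hle, ?_⟩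
    · have hu' : (u : ℝ) = c + e := by rw [← hce]; push_cast; ring
      have hc' : (0 : ℝ) < c := by exact_mod_cast hc
      have he' : (0 : ℝ) < e := by exact_mod_cast he
      have h' : (e : ℝ) * finrank ℂ (linSys d p m) + c * S ≤ c * e * M := by exact_mod_cast hle
      have e1 : (u : ℝ) - c = e := by rw [hu']; ring
      rw [e1, div_add_div _ _ hc'.ne' he'.ne', div_le_iff₀ (mul_pos hc' he')]
      linarith
    · obtain ⟨E, hE⟩ := exists_dual p hp
      have hfin : Module.Finite ℂ (linSys d p m) :=
        Submodule.finiteDimensional_of_le (linSys_le d p _)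
      have hpos : 0 < finrank ℂ (linSys d p m) :=
        Nat.pos_of_ne_zero fun h0 => hne (Submodule.finrank_eq_zero.mp h0)
      obtain ⟨i, j, hi, hij, hX⟩ := special_bound_above (d := d) hE hB'
        (fun l => onB_le B m l) hpos (by omega)
      refine ⟨i, j, fun hiB => ?_, hij, hX⟩
      unfold onB at hi
      rw [if_pos hiB] at hi
      omega
  · rcases hB with rfl | ⟨h3, hK⟩
    · have h1 : (fun i => if i ∈ (∅ : Finset (Fin r)) then m i else 0) = fun _ => 0 := by
        funext i
        rw [if_neg (Finset.notMem_empty i)]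
      have h2 : linSys d p (fun _ : Fin r => 0) = Rd d := by
        refine le_antisymm (linSys_le d p _) (fun F hF => ⟨hF, fun i => ?_⟩)
        exact vanishTo_zero F (p i)
      unfold Independent
      rw [h1, h2, finrank_Rd, Finset.sum_empty, Nat.add_zero]
    · have h1 := LD.B_regular (d := d) (m := onB B m) (fun J hJ => ?_) (by
        rw [LD.sum_onB_id]
        exact hK)
      · rw [sum_onB, ← LD.hPm_eq hp] at h1
        exact h1
      · have h4 : ∑ i ∈ J, onB B m i = ∑ i ∈ J.filter (fun i => i ∈ B), m i := by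
          rw [Finset.sum_filter]
          rfl
        rw [h4]
        exact h3 _ (fun i hi => (Finset.mem_filter.mp hi).2)
          ((Finset.card_filter_le _ _).trans hJ)
  · have h1 := super_window hp hne
    omega
  · exact (special_attained hp α β).1
  · have h1 := LD.tr_two_choose (α + 2)
    have h2 := LD.tr_two_choose (β + 2)
    have h3 := LD.tr_two_choose (α + β + 3)
    have e1 : α + β + 2 + 2 = α + β + 3 + 1 := rfl
    rw [Fin.sum_univ_two, e1]
    change (α + 1) * (β + 1) + ((α + 2 + 1).choose 2 + (β + 2 + 1).choose 2) = _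
    nlinarith
  · have key : LD.Rg (d - 1) (onB B m) ∧ (∀ e, e ∉ B → 2 ≤ m e → LD.Rg (d - 1) (withE B m e)) ∧
        ∀ i ∈ B, 2 ≤ m i → LD.Rg d (Function.update (onB B m) i (m i + 1)) := by
      rcases hB with rfl | ⟨h3, hK⟩
      · refine ⟨LD.Rg_empty _ m, fun e _ _ => ?_, fun i hi => absurd hi (Finset.notMem_empty i)⟩
        obtain ⟨f₁, hf₁, hf₁0⟩ := Submodule.exists_mem_ne_zero_of_ne_bot hne
        have h1 := le_of_vanishTo hf₁.1 hf₁0 (hf₁.2 e)
        exact rg_one (by omega)
      · obtain ⟨b0, be, bi⟩ := B_nef_rg hu h3 hms hK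
        exact ⟨b0, fun e he _ => be e he, fun i hi _ => bi i hi⟩
    obtain ⟨b0, be, bi⟩ := key
    obtain ⟨h1, h2⟩ := window_smooth p hp m hu huM hM hms (by omega) b0 be bi
    exact ⟨h1, h2 hne⟩

end Pool.Agent.Results.MP_0421d9_ag.SquareRootWindow
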